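import Pool.Agent.Helper63.XR.StB

/-!
Module GCI of project XR: irrational rotations of the unit circle.
-/

set_option autoImplicit false

namespace Pool.Agent.Helper71.XR

open Pool.Agent.Helper63.XR

theorem hGCI : StGci := by
  intro hgad hgcj hrec θ hθ
  have hne : (1 : ℝ) ≠ 0 := one_ne_zero
  have h1 := hgcj (AddCircle (1 : ℝ)) Circle (AddCircle.homeomorphCircle hne)
    (Homeomorph.addLeft ((θ : ℝ) : AddCircle (1 : ℝ))) (hgad hrec θ hθ)
  have h2 : ((AddCircle.homeomorphCircle hne).symm.trans
      (Homeomorph.addLeft ((θ : ℝ) : AddCircle (1 : ℝ)))).trans (AddCircle.homeomorphCircle hne)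
      = Homeomorph.mulLeft (Circle.exp (2 * Real.pi * θ)) := by
    apply Homeomorph.ext
    intro z
    show AddCircle.homeomorphCircle hne ((θ : AddCircle (1 : ℝ)) +
      (AddCircle.homeomorphCircle hne).symm z) = Circle.exp (2 * Real.pi * θ) * z
    rw [AddCircle.homeomorphCircle_apply, AddCircle.toCircle_add,
      ← AddCircle.homeomorphCircle_apply hne ((AddCircle.homeomorphCircle hne).symm z),
      Homeomorph.apply_symm_apply, AddCircle.toCircle_apply_mk, div_one]
  rw [h2] at h1
  exact h1

end Pool.Agent.Helper71.XR
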